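import Pool.Agent.R557.CKFin

set_option autoImplicit false

/-! Problem MP_8ca5b0_lc: convex combinations of Kolmogorov random measures are Kolmogorov
random. -/

namespace Pool.Agent.Results.MP_8ca5b0_lc.ConvexCombination

open MeasureTheory Finset
open Pool.Agent.TH676.CK (isKP_cx isPlain_cx exists_optPFree)
open Pool.Agent.R557.CK

/-- An optimal (universal) plain machine: a partial computable map `U` from programs (binary
strings) to binary strings which simulates every partial computable map `V` with programs longer by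
at most a constant. -/
def OptimalPlain (U : List Bool →. List Bool) : Prop :=
  Partrec U ∧ ∀ V : List Bool →. List Bool, Partrec V →
    ∃ c : ℕ, ∀ p x : List Bool, x ∈ V p → ∃ q : List Bool, x ∈ U q ∧ q.length ≤ p.length + c

/-- The plain complexity `C(x)` with respect to the machine `U`: the least length of a program
for `x`. -/
noncomputable def complexity (U : List Bool →. List Bool) (x : List Bool) : ℕ :=
  sInf {l : ℕ | ∃ p : List Bool, p.length = l ∧ x ∈ U p}

/-- The initial-segment complexity of `μ` at length `n`: the sum of `μ[x] C(x)` over the strings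
`x` of length `n`, where `μ[x]` is the measure of the set of sequences extending `x`. -/
noncomputable def average (U : List Bool →. List Bool) (μ : Measure (ℕ → Bool)) (n : ℕ) : ℝ :=
  ∑ x : Fin n → Bool, μ.real {X | ∀ i : Fin n, X i = x i} * complexity U (List.ofFn x)

/-- `μ` is Kolmogorov random: for some `d`, the initial-segment complexity at length `n` is at
least `n - d` for infinitely many `n`. -/
def KolmogorovRandom (U : List Bool →. List Bool) (μ : Measure (ℕ → Bool)) : Prop :=
  ∃ d : ℝ, ∀ N : ℕ, ∃ n : ℕ, N ≤ n ∧ (n : ℝ) - d ≤ average U μ n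

/-- For Kolmogorov random probability measures `μ`, `ν` and every real `t` with `0 ≤ t ≤ 1` the
measure `t μ + (1 - t) ν` is Kolmogorov random. -/
theorem result (U : List Bool →. List Bool) (hU : OptimalPlain U)
    (μ ν : Measure (ℕ → Bool)) [IsProbabilityMeasure μ] [IsProbabilityMeasure ν]
    (hμ : KolmogorovRandom U μ) (hν : KolmogorovRandom U ν) (t : ℝ) (ht0 : 0 ≤ t) (ht1 : t ≤ 1) :
    KolmogorovRandom U (ENNReal.ofReal t • μ + ENNReal.ofReal (1 - t) • ν) := by
  classical
  obtain ⟨str, hs⟩ := exists_str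
  obtain ⟨V, hV⟩ := exists_optPFree
  have hC := isPlain_cx (U := U) hU str hs
  have hK := isKP_cx (V := V) hV str hs
  set C : ℕ → ℕ := fun n => complexity U (str n) with hCdef
  set K : ℕ → ℕ := fun n => Pool.Agent.TH676.CK.cx V (str n) with hKdef
  change Pool.Agent.TH676.CK.IsPlain C at hC
  obtain ⟨c, hc⟩ := star_meas str hs hK hC
  obtain ⟨e, he⟩ := K_half_meas str hs hK hC
  have havg : ∀ (m : ℕ) (ρ : Measure (ℕ → Bool)) [IsProbabilityMeasure ρ], average U ρ m =
      ∫ X, (C (str.symm (ini m X)) : ℝ) ∂ρ := by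
    intro m ρ hρ
    simp only [hCdef, Equiv.apply_symm_apply]
    exact integral_ini ρ m (fun x => (complexity U x : ℝ))
  set ρ : Measure (ℕ → Bool) := ENNReal.ofReal t • μ + ENNReal.ofReal (1 - t) • ν with hρdef
  have hρ : IsProbabilityMeasure ρ := by
    constructor
    rw [hρdef]
    simp only [Measure.coe_add, Measure.coe_smul, Pi.add_apply, Pi.smul_apply, measure_univ,
      smul_eq_mul, mul_one]
    rw [← ENNReal.ofReal_add ht0 (by linarith)]
    simp
  -- integrals with respect to the mixture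
  have hmix : ∀ (m : ℕ) (F : List Bool → ℝ), ∫ X, F (ini m X) ∂ρ =
      t * ∫ X, F (ini m X) ∂μ + (1 - t) * ∫ X, F (ini m X) ∂ν := by
    intro m F
    rw [hρdef, integral_add_measure ((integrable_ini μ m F).smul_measure ENNReal.ofReal_ne_top)
      ((integrable_ini ν m F).smul_measure ENNReal.ofReal_ne_top), integral_smul_measure,
      integral_smul_measure, ENNReal.toReal_ofReal ht0, ENNReal.toReal_ofReal (by linarith)]
    rfl
  obtain ⟨d1, hd1⟩ := hμ
  obtain ⟨d2, hd2⟩ := hν
  set D : ℝ := max d1 d2 with hD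
  -- infinitely many lengths with large average prefix complexity
  have hA : ∀ p : ℕ, ∃ z : ℕ, p ≤ z ∧
      (z : ℝ) + K z - (4 * (c + D) + 1) ≤ ∫ X, (K (str.symm (ini z X)) : ℝ) ∂ρ := by
    intro p
    obtain ⟨r, w, hw0, hw1, n₁, hn₁⟩ := hc p
    obtain ⟨n, hn, hBn⟩ := hd1 n₁
    obtain ⟨m, hm, hBm⟩ := hd2 n₁
    have h1 := hn₁ n hn μ
    rw [← havg] at h1
    have h2 := hn₁ m hm ν
    rw [← havg] at h2
    have hD1 : d1 ≤ D := le_max_left _ _
    have hD2 : d2 ≤ D := le_max_right _ _
    set S1 := ∑ z ∈ Ico p r, w z * ((z : ℝ) + K z - ∫ X, (K (str.symm (ini z X)) : ℝ) ∂μ) with hS1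
    set S2 := ∑ z ∈ Ico p r, w z * ((z : ℝ) + K z - ∫ X, (K (str.symm (ini z X)) : ℝ) ∂ν) with hS2
    have h3 : S1 ≤ 4 * (c + D) := by linarith
    have h4 : S2 ≤ 4 * (c + D) := by linarith
    have h5 : ∑ z ∈ Ico p r, w z * ((z : ℝ) + K z - ∫ X, (K (str.symm (ini z X)) : ℝ) ∂ρ) =
        t * S1 + (1 - t) * S2 := by
      rw [hS1, hS2, Finset.mul_sum, Finset.mul_sum, ← Finset.sum_add_distrib]
      apply Finset.sum_congr rfl
      intro z _
      rw [hmix z (fun x => (K (str.symm x) : ℝ))]
      ring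
    by_contra hcon
    push Not at hcon
    have h6 : ∑ z ∈ Ico p r, w z * (4 * (c + D) + 1) ≤ ∑ z ∈ Ico p r,
        w z * ((z : ℝ) + K z - ∫ X, (K (str.symm (ini z X)) : ℝ) ∂ρ) := by
      apply Finset.sum_le_sum
      intro z hz
      apply mul_le_mul_of_nonneg_left _ (hw0 z hz)
      rw [mem_Ico] at hz
      have h3 := hcon z hz.1
      linarith
    rw [← Finset.sum_mul, hw1, one_mul, h5] at h6
    have h7 : t * S1 + (1 - t) * S2 ≤ t * (4 * (c + D)) + (1 - t) * (4 * (c + D)) :=
      add_le_add (mul_le_mul_of_nonneg_left h3 ht0) (mul_le_mul_of_nonneg_left h4 (by linarith))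
    linarith
  refine ⟨2 * (4 * (c + D) + 1) + 2 * e, fun N => ?_⟩
  obtain ⟨z, hz, h1⟩ := hA N
  refine ⟨z, hz, ?_⟩
  have h2 := he z ρ
  rw [havg]
  linarith

end Pool.Agent.Results.MP_8ca5b0_lc.ConvexCombination
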